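import Pool.Agent.H12.KG.Targets

/-!
# WA1P: weak approximation on `Proj` (helper68, board kpg_modules)
-/

namespace Pool.Agent.H68.KG

open AlgebraicGeometry CategoryTheory Pool.Agent.H12.KP Pool.Agent.H12.KG

universe u

lemma rho_rfl_surj {X : Scheme.{u}} (w : X) : Function.Surjective (rho (specializes_rfl : w ⤳ w)) := by
  intro z
  obtain ⟨s, hs⟩ := X.residue_surjective w z
  refine ⟨s, ?_⟩
  unfold rho
  rw [TopCat.Presheaf.stalkSpecializes_refl, Category.id_comp]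
  exact hs

lemma noeth {A S : Type u} [CommRing A] [IsNoetherianRing A] [CommRing S] [Algebra A S]
    (M : Submodule A S) (hM : M.FG) (h : Algebra.adjoin A (M : Set S) = ⊤) :
    IsNoetherianRing S := by
  obtain ⟨t, ht⟩ := hM
  have h1 : Algebra.adjoin A (t : Set S) = ⊤ := by
    rw [← h, ← ht, Algebra.adjoin_span]
  have h2 : Algebra.FiniteType A S := ⟨⟨t, h1⟩⟩
  exact Algebra.FiniteType.isNoetherianRing A S

theorem pf_WA1P (hW : S_WAL.{u}) (hQ : S_QGR.{u}) (hQP : S_QPT.{u}) (hPT : S_PTS.{u})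
    (hST : S_STK.{u}) : S_WA1P.{u} := by
  intro A S _ _ _ _ _ 𝒮 _ hfg hadj π hπ n hn w hw H hH
  obtain ⟨pRel, pEx, pSpec, pInj, -, pSp⟩ := hPT A S 𝒮 hadj
  have hIp : (idl 𝒮 w).IsPrime := (pRel w).1
  have hDdom : IsDomain (S ⧸ idl 𝒮 w) := Ideal.Quotient.isDomain _
  have hSn : IsNoetherianRing S := noeth (𝒮 1) hfg hadj
  have hDn : IsNoetherianRing (S ⧸ idl 𝒮 w) := inferInstance
  obtain ⟨gr⟩ := hQ A S 𝒮 (idl 𝒮 w) (pRel w).2.1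
  obtain ⟨q1, q2⟩ := hQP A S 𝒮 (idl 𝒮 w)
  obtain ⟨j, hj1, hj2⟩ := hST A S 𝒮 w (FractionRing (S ⧸ idl 𝒮 w))
  set L := FractionRing (S ⧸ idl 𝒮 w) with hL
  have hjinj : Function.Injective j := j.injective
  have hbot : (idl 𝒮 w).map (Ideal.Quotient.mk (idl 𝒮 w)) = ⊥ := Ideal.map_quotient_self _
  have hjL : ∀ f : L, (∃ z, j z = f) ↔ f ∈ Loc (qgr 𝒮 (idl 𝒮 w)) L ⊥ := by
    intro f
    have h1 := hj1 w specializes_rfl f
    rw [hbot] at h1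
    rw [← h1]
    constructor
    · rintro ⟨z, hz⟩
      obtain ⟨s, hs⟩ := rho_rfl_surj w z
      exact ⟨s, by rw [hs]; exact hz⟩
    · rintro ⟨s, hs⟩
      exact ⟨_, hs⟩
  have hπD : algebraMap A (S ⧸ idl 𝒮 w) π = Ideal.Quotient.mk (idl 𝒮 w) (algebraMap A S π) := rfl
  have hπ0 : algebraMap A (S ⧸ idl 𝒮 w) π ≠ 0 := by
    rw [hπD, Ne, Ideal.Quotient.eq_zero_iff_mem]
    intro h
    exact hw ((pSp π w).2 h)
  classical
  let pt : Ideal (S ⧸ idl 𝒮 w) → Proj 𝒮 := fun y =>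
    if h : ∃ p : Proj 𝒮, idl 𝒮 p = y.comap (Ideal.Quotient.mk (idl 𝒮 w)) then h.choose else w
  have hpt : ∀ (y : Ideal (S ⧸ idl 𝒮 w)) (p : Proj 𝒮),
      idl 𝒮 p = y.comap (Ideal.Quotient.mk (idl 𝒮 w)) → pt y = p := by
    intro y p hp
    have h : ∃ p : Proj 𝒮, idl 𝒮 p = y.comap (Ideal.Quotient.mk (idl 𝒮 w)) := ⟨p, hp⟩
    have h1 : pt y = h.choose := dif_pos h
    rw [h1]
    exact pInj _ _ (h.choose_spec.trans hp.symm)
  obtain ⟨h', hh'L, hh'0, hh'⟩ := hW A (S ⧸ idl 𝒮 w) (qgr 𝒮 (idl 𝒮 w)) L π hπ0 n hn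
    (fun y => j (H (pt y)))
    (fun y => ⟨(hjL _).1 ⟨_, rfl⟩, (map_ne_zero_iff j hjinj).2 (hH _)⟩)
  obtain ⟨h0, hh0⟩ := (hjL h').2 hh'L
  refine ⟨h0, ?_, ?_⟩
  · rintro rfl
    rw [map_zero] at hh0
    exact hh'0 hh0.symm
  intro y hy hgen
  obtain ⟨-, hySp, hymin⟩ := hgen
  have hle : idl 𝒮 w ≤ idl 𝒮 y := (pSpec w y).1 hy
  have hRelyb := q1 (idl 𝒮 y) hle (pRel y)
  have hcomap : ((idl 𝒮 y).map (Ideal.Quotient.mk (idl 𝒮 w))).comap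
      (Ideal.Quotient.mk (idl 𝒮 w)) = idl 𝒮 y := by
    rw [Ideal.comap_map_of_surjective' _ Ideal.Quotient.mk_surjective, Ideal.mk_ker]
    exact sup_eq_left.2 hle
  have hπy : algebraMap A S π ∈ idl 𝒮 y := (pSp π y).1 hySp
  have hπyb : algebraMap A (S ⧸ idl 𝒮 w) π ∈ (idl 𝒮 y).map (Ideal.Quotient.mk (idl 𝒮 w)) := by
    rw [hπD]
    exact Ideal.mem_map_of_mem _ hπy
  have hprime : ((idl 𝒮 y).map (Ideal.Quotient.mk (idl 𝒮 w))).IsPrime := hRelyb.1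
  obtain ⟨y0, hy0, hy0le⟩ := Ideal.exists_minimalPrimes_le
    (I := Ideal.span {algebraMap A (S ⧸ idl 𝒮 w) π})
    (J := (idl 𝒮 y).map (Ideal.Quotient.mk (idl 𝒮 w)))
    ((Ideal.span_singleton_le_iff_mem _).2 hπyb)
  have hy0p : y0.IsPrime := hy0.1.1
  have hπy0 : algebraMap A (S ⧸ idl 𝒮 w) π ∈ y0 :=
    (Ideal.span_singleton_le_iff_mem _).1 hy0.1.2
  have hhom : y0.IsHomogeneous (qgr 𝒮 (idl 𝒮 w)) := by
    have h1 : (y0.homogeneousCore (qgr 𝒮 (idl 𝒮 w))).toIdeal.IsPrime := hy0p.homogeneousCore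
    have h2 : (y0.homogeneousCore (qgr 𝒮 (idl 𝒮 w))).toIdeal ≤ y0 :=
      Ideal.toIdeal_homogeneousCore_le _ _
    have h3 : algebraMap A (S ⧸ idl 𝒮 w) π ∈
        (y0.homogeneousCore (qgr 𝒮 (idl 𝒮 w))).toIdeal :=
      Ideal.mem_homogeneousCore_of_homogeneous_of_mem
        ⟨0, SetLike.algebraMap_mem_graded _ _⟩ hπy0
    have h4 : y0 ≤ (y0.homogeneousCore (qgr 𝒮 (idl 𝒮 w))).toIdeal :=
      hy0.2 ⟨h1, (Ideal.span_singleton_le_iff_mem _).2 h3⟩ h2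
    have h5 : y0 = (y0.homogeneousCore (qgr 𝒮 (idl 𝒮 w))).toIdeal := le_antisymm h4 h2
    rw [h5]
    exact (y0.homogeneousCore (qgr 𝒮 (idl 𝒮 w))).isHomogeneous
  have hRel0 : Rel (qgr 𝒮 (idl 𝒮 w)) y0 :=
    ⟨hy0p, hhom, fun h => hRelyb.2.2 (h.trans hy0le)⟩
  obtain ⟨Y0, hY0⟩ := pEx _ (q2 y0 hRel0)
  have hwY0 : w ⤳ Y0 := by
    rw [pSpec, hY0]
    intro a ha
    rw [Ideal.mem_comap, Ideal.Quotient.eq_zero_iff_mem.2 ha]
    exact y0.zero_mem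
  have hY0y : Y0 ⤳ y := by
    rw [pSpec, hY0, ← hcomap]
    exact Ideal.comap_mono hy0le
  have hSpY0 : Sp (projStr 𝒮) π Y0 := by
    rw [pSp, hY0, Ideal.mem_comap]
    exact hπy0
  have hYy : Y0 = y := hymin Y0 hwY0 hY0y hSpY0
  have hidly : idl 𝒮 y = y0.comap (Ideal.Quotient.mk (idl 𝒮 w)) := by rw [← hYy, hY0]
  have hmap : (idl 𝒮 y).map (Ideal.Quotient.mk (idl 𝒮 w)) = y0 := by
    rw [hidly, Ideal.map_comap_of_surjective _ Ideal.Quotient.mk_surjective]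
  obtain ⟨s, hs, hhs⟩ := hh' y0 hy0 hRel0
  obtain ⟨s', hs'⟩ := (hj1 y hy s).2 (by rw [hmap]; exact hs)
  refine ⟨s', ?_⟩
  apply hjinj
  rw [hh0, hhs, hpt y0 y hidly, map_mul, map_add, map_one, map_mul, map_pow, hj2, hs']
  rfl

end Pool.Agent.H68.KG
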