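import Pool.Agent.H77.KG.Targets2

/-!
# Row CCF: finitely many commutators are central
-/

set_option autoImplicit false

open Set Pool.Agent.H77.BC Pool.Agent.H77.BD Pool.Agent.H77.KG

namespace Pool.Agent.H68.KG.CCF

/-- the operators as linear maps -/
noncomputable def Lm {K G V : Type} [Field K] [Group G] [AddCommGroup V] [DistribMulAction G V]
    [Module K V] (h : ∀ (g : G) (k : K) (v : V), g • (k • v) = k • (g • v)) (g : G) :
    V →ₗ[K] V where
  toFun v := g • v
  map_add' v w := smul_add g v w
  map_smul' k v := h g k v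

theorem Lm_apply {K G V : Type} [Field K] [Group G] [AddCommGroup V] [DistribMulAction G V]
    [Module K V] (h : ∀ (g : G) (k : K) (v : V), g • (k • v) = k • (g • v)) (g : G) (v : V) :
    Lm h g v = g • v := rfl

theorem Lm_mul {K G V : Type} [Field K] [Group G] [AddCommGroup V] [DistribMulAction G V]
    [Module K V] (h : ∀ (g : G) (k : K) (v : V), g • (k • v) = k • (g • v)) (g g' : G) :
    Lm h (g * g') = Lm h g ∘ₗ Lm h g' := by
  ext v
  rw [LinearMap.comp_apply, Lm_apply, Lm_apply, Lm_apply, mul_smul]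

theorem Lm_one {K G V : Type} [Field K] [Group G] [AddCommGroup V] [DistribMulAction G V]
    [Module K V] (h : ∀ (g : G) (k : K) (v : V), g • (k • v) = k • (g • v)) :
    Lm h (1 : G) = LinearMap.id := by
  ext v
  rw [Lm_apply, one_smul, LinearMap.id_apply]

theorem det_pair {K G V : Type} [Field K] [Group G] [AddCommGroup V] [DistribMulAction G V]
    [Module K V] (h : ∀ (g : G) (k : K) (v : V), g • (k • v) = k • (g • v)) (g : G) :
    LinearMap.det (Lm h g) * LinearMap.det (Lm h g⁻¹) = 1 := by
  rw [← LinearMap.det_comp, ← Lm_mul, mul_inv_cancel, Lm_one, LinearMap.det_id]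

/-- the scalar of a central commutator is a root of unity -/
theorem pow_one {K G V : Type} [Field K] [Group G] [AddCommGroup V] [DistribMulAction G V]
    [Module K V] (h : ∀ (g : G) (k : K) (v : V), g • (k • v) = k • (g • v)) (c a t : G) (k : K)
    (hc : ∀ v : V, c • v = k • v) (he : c = t * a * t⁻¹ * a⁻¹) :
    k ^ Module.finrank K V = 1 := by
  have h1 : t * a * t⁻¹ = c * a := by rw [he]; group
  have h2 : Lm h (c * a) = k • Lm h a := by
    ext v
    rw [Lm_apply, mul_smul, hc, LinearMap.smul_apply, Lm_apply]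
  have h3 : LinearMap.det (Lm h (t * a * t⁻¹)) = LinearMap.det (Lm h a) := by
    rw [Lm_mul, Lm_mul, LinearMap.det_comp, LinearMap.det_comp]
    have := det_pair h t
    linear_combination LinearMap.det (Lm h a) * this
  rw [h1, h2, LinearMap.det_smul] at h3
  have h4 : LinearMap.det (Lm h a) ≠ 0 := by
    intro h0
    have := det_pair h a
    rw [h0, zero_mul] at this
    exact zero_ne_one this
  have h5 : k ^ Module.finrank K V * LinearMap.det (Lm h a) = 1 * LinearMap.det (Lm h a) := by
    rw [h3, one_mul]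
  exact mul_right_cancel₀ h4 h5

theorem pf_CCF (hVFD : T_VFD) (hCTD : T_CTD) (hCCE : T_CCE) : T_CCF := by
  intro M U G V iG iV iA cG cV dG dV dA hconn hmn hf
  by_cases hfin : ((Subgroup.center G : Subgroup G) : Set G).Finite
  · exact hfin.subset fun c hc => hc.1
  have hZ : U.D ((Subgroup.center G : Subgroup G) : Set G) := by
    have := (hCTD U (Γ := G)).1 univ
    rwa [Subgroup.centralizer_univ] at this
  obtain ⟨hT1, hT2, hT3, -, -, -⟩ := hCCE U (Subgroup.center G) hZ
  set T := cc U (Subgroup.center G) with hT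
  have hR := Pool.Agent.H77.BCP.a_RKA U
  have hTinf : ¬ (T : Set G).Finite := by
    intro h
    have h1 := (hR.fin hT1.1 ⟨1, T.one_mem⟩).2 h
    rw [hT3] at h1
    exact hfin ((hR.fin hZ ⟨1, Subgroup.one_mem _⟩).1 h1)
  obtain ⟨t, ht, ht1⟩ : ∃ t ∈ T, t ≠ 1 := by
    by_contra hcon
    push Not at hcon
    exact hTinf ((finite_singleton (1 : G)).subset fun x hx => hcon x hx)
  obtain ⟨v, hv⟩ : ∃ v : V, t • v ≠ v := by
    by_contra hcon
    push Not at hcon
    exact ht1 (hf.eq_of_smul_eq_smul fun v => by rw [hcon v, one_smul])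
  obtain ⟨K, iK, iM, hfd, hlin, hsc⟩ := hVFD U hconn hmn T hT1
    (fun s hs g => ((Subgroup.mem_center_iff.1 (hT2 hs)) g).symm) ⟨t, ht, v, hv⟩
  have hVinf : Infinite V := by
    have := hmn.2.2.1
    rw [AddSubgroup.coe_top] at this
    exact infinite_univ_iff.1 this
  have hd : 0 < Module.finrank K V := by
    have : Nontrivial V := inferInstance
    exact Module.finrank_pos
  have hroots : {k : K | k ^ Module.finrank K V = 1}.Finite := by
    classical
    refine (Multiset.toFinset (Polynomial.nthRoots (Module.finrank K V) (1 : K))).finite_toSet.subset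
      fun k hk => ?_
    rw [Finset.mem_coe, Multiset.mem_toFinset, Polynomial.mem_nthRoots hd]
    exact hk
  choose! κ hκ using hsc
  refine Set.Finite.of_injOn (f := κ) (t := {k : K | k ^ Module.finrank K V = 1}) ?_ ?_ hroots
  · rintro c ⟨hc, a, s, he⟩
    exact pow_one hlin c a s (κ c) (fun v => hκ c hc v) he
  · rintro c ⟨hc, -⟩ c' ⟨hc', -⟩ he
    exact hf.eq_of_smul_eq_smul fun v => by rw [hκ c hc v, hκ c' hc' v, he]

end Pool.Agent.H68.KG.CCF
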