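import Pool.Agent.H77.KG.Targets2

/-!
# Row MLC: connected solvable groups act on minimal modules as abelian groups
-/

set_option autoImplicit false

open Set Pool.Agent.H77.BC Pool.Agent.H77.BD Pool.Agent.H77.KG

namespace Pool.Agent.H68.KG.MLC

section pure

variable {G : Type} [Group G]

/-- the elements which commute with `X` modulo `N` -/
def Cm (N : Subgroup G) [N.Normal] (X : Set G) : Subgroup G :=
  (Subgroup.centralizer (QuotientGroup.mk' N '' X)).comap (QuotientGroup.mk' N)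

theorem mem_Cm {N : Subgroup G} [N.Normal] {X : Set G} {g : G} :
    g ∈ Cm N X ↔ ∀ x ∈ X, g * x * g⁻¹ * x⁻¹ ∈ N := by
  unfold Cm
  rw [Subgroup.mem_comap, Subgroup.mem_centralizer_iff]
  constructor
  · intro h x hx
    have h1 := h _ ⟨x, hx, rfl⟩
    rw [← QuotientGroup.eq_one_iff]
    have h2 : ((g * x * g⁻¹ * x⁻¹ : G) : G ⧸ N) = (g : G ⧸ N) * x * (g : G ⧸ N)⁻¹ * (x : G ⧸ N)⁻¹ := rfl
    have h3 : (x : G ⧸ N) * (g : G ⧸ N) = (g : G ⧸ N) * x := h1
    rw [h2, ← h3]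
    group
  · rintro h _ ⟨x, hx, rfl⟩
    have h1 := h x hx
    rw [← QuotientGroup.eq_one_iff] at h1
    have h2 : ((g * x * g⁻¹ * x⁻¹ : G) : G ⧸ N) = (g : G ⧸ N) * x * (g : G ⧸ N)⁻¹ * (x : G ⧸ N)⁻¹ := rfl
    rw [h2] at h1
    change (x : G ⧸ N) * (g : G ⧸ N) = (g : G ⧸ N) * x
    have h3 : (g : G ⧸ N) * x = (g : G ⧸ N) * x * (g : G ⧸ N)⁻¹ * (x : G ⧸ N)⁻¹ * (x * g) := by group
    rw [h3, h1, one_mul]

theorem coe_Cm (N : Subgroup G) [N.Normal] (X : Set G) :
    (Cm N X : Set G) = {g : G | ∀ x ∈ X, g * x * g⁻¹ * x⁻¹ ∈ N} := by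
  ext g
  exact mem_Cm

theorem Cm_normal (N : Subgroup G) [hN : N.Normal] (X : Set G)
    (hX : ∀ x ∈ X, ∀ h : G, h * x * h⁻¹ ∈ X) : (Cm N X).Normal := by
  constructor
  intro g hg h
  rw [mem_Cm] at hg ⊢
  intro x hx
  have h1 := hg (h⁻¹ * x * h) (by simpa using hX x hx h⁻¹)
  have h2 := hN.conj_mem _ h1 h
  have h3 : h * (g * (h⁻¹ * x * h) * g⁻¹ * (h⁻¹ * x * h)⁻¹) * h⁻¹ =
      h * g * h⁻¹ * x * (h * g * h⁻¹)⁻¹ * x⁻¹ := by group
  rwa [h3] at h2

/-- the index of the centralizer modulo `N` of an element of `A`, `A / N` finite -/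
theorem Cm_index (N A : Subgroup G) [N.Normal] (hA : A.Normal) (hi : N.relIndex A ≠ 0) (a : G)
    (ha : a ∈ A) : (Cm N {a}).index ≠ 0 := by
  have hfin : Finite (A ⧸ N.subgroupOf A) := by
    have : (N.subgroupOf A).FiniteIndex := ⟨hi⟩
    exact Subgroup.finite_quotient_of_finiteIndex
  have h2 : ∀ g : G, ((g * a * g⁻¹ : G) : G ⧸ N) ∈
      Set.range fun q : A ⧸ N.subgroupOf A => (((q.out : A) : G) : G ⧸ N) := by
    intro g
    have h3 : g * a * g⁻¹ ∈ A := hA.conj_mem a ha g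
    refine ⟨((⟨g * a * g⁻¹, h3⟩ : A) : A ⧸ N.subgroupOf A), ?_⟩
    have h4 : ((((⟨g * a * g⁻¹, h3⟩ : A) : A ⧸ N.subgroupOf A).out : A) : A ⧸ N.subgroupOf A) =
        ((⟨g * a * g⁻¹, h3⟩ : A) : A ⧸ N.subgroupOf A) := Quotient.out_eq' _
    rw [QuotientGroup.eq] at h4
    change ((((((⟨g * a * g⁻¹, h3⟩ : A) : A ⧸ N.subgroupOf A).out : A) : G)) : G ⧸ N) = _
    rw [QuotientGroup.eq]
    exact h4
  have h3 : Finite (G ⧸ Cm N {a}) := by
    have hf : Finite (Set.range fun q : A ⧸ N.subgroupOf A => (((q.out : A) : G) : G ⧸ N)) :=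
      (Set.finite_range _).to_subtype
    have hwd : ∀ g g' : G, (QuotientGroup.leftRel (Cm N {a})).r g g' →
        (⟨((g * a * g⁻¹ : G) : G ⧸ N), h2 g⟩ :
          Set.range fun q : A ⧸ N.subgroupOf A => (((q.out : A) : G) : G ⧸ N)) =
        ⟨((g' * a * g'⁻¹ : G) : G ⧸ N), h2 g'⟩ := by
      intro g g' h
      rw [QuotientGroup.leftRel_apply] at h
      rw [mem_Cm] at h
      have h4 := h a rfl
      apply Subtype.ext
      change ((g * a * g⁻¹ : G) : G ⧸ N) = ((g' * a * g'⁻¹ : G) : G ⧸ N)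
      rw [QuotientGroup.eq]
      have h5 := (inferInstance : N.Normal).conj_mem _ h4 (g * a⁻¹)
      have h6 : g * a⁻¹ * (g⁻¹ * g' * a * (g⁻¹ * g')⁻¹ * a⁻¹) * (g * a⁻¹)⁻¹ =
          (g * a * g⁻¹)⁻¹ * (g' * a * g'⁻¹) := by group
      rwa [h6] at h5
    refine Finite.of_injective (Quotient.lift (s := QuotientGroup.leftRel (Cm N {a}))
      (fun g => (⟨((g * a * g⁻¹ : G) : G ⧸ N), h2 g⟩ :
          Set.range fun q : A ⧸ N.subgroupOf A => (((q.out : A) : G) : G ⧸ N))) hwd) ?_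
    intro x y hxy
    induction x using Quotient.inductionOn with
    | h g =>
      induction y using Quotient.inductionOn with
      | h g' =>
        have h4 : ((g * a * g⁻¹ : G) : G ⧸ N) = ((g' * a * g'⁻¹ : G) : G ⧸ N) :=
          congrArg Subtype.val hxy
        rw [QuotientGroup.eq] at h4
        apply Quotient.sound
        change (QuotientGroup.leftRel (Cm N {a})).r g g'
        rw [QuotientGroup.leftRel_apply, mem_Cm]
        rintro x rfl
        have h5 := (inferInstance : N.Normal).conj_mem _ h4 (x * g⁻¹)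
        have h6 : x * g⁻¹ * ((g * x * g⁻¹)⁻¹ * (g' * x * g'⁻¹)) * (x * g⁻¹)⁻¹ =
            g⁻¹ * g' * x * (g⁻¹ * g')⁻¹ * x⁻¹ := by group
        rwa [h6] at h5
  exact Subgroup.index_ne_zero_of_finite

/-- the commutator subgroup of `B` is finite if it is central and there are finitely many
commutators -/
theorem comm_finite (B : Subgroup G) (hc : ⁅B, B⁆ ≤ Subgroup.center G)
    (hf : {c : G | ∃ b ∈ B, ∃ b' ∈ B, c = b * b' * b⁻¹ * b'⁻¹}.Finite) :
    ((⁅B, B⁆ : Subgroup G) : Set G).Finite := by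
  have hcl : ⁅B, B⁆ = Subgroup.closure {c : G | ∃ b ∈ B, ∃ b' ∈ B, c = b * b' * b⁻¹ * b'⁻¹} := by
    rw [Subgroup.commutator_def]
    congr 1
    ext c
    constructor
    · rintro ⟨b, hb, b', hb', rfl⟩
      exact ⟨b, hb, b', hb', by rw [commutatorElement_def]⟩
    · rintro ⟨b, hb, b', hb', rfl⟩
      exact ⟨b, hb, b', hb', by rw [commutatorElement_def]⟩
  have hmem : ∀ b ∈ B, ∀ b' ∈ B, b * b' * b⁻¹ * b'⁻¹ ∈ ⁅B, B⁆ := by
    intro b hb b' hb'
    have := Subgroup.commutator_mem_commutator hb hb'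
    rwa [commutatorElement_def] at this
  have hpow : ∀ b ∈ B, ∀ b' ∈ B, ∀ k : ℕ,
      b ^ k * b' * (b ^ k)⁻¹ * b'⁻¹ = (b * b' * b⁻¹ * b'⁻¹) ^ k := by
    intro b hb b' hb' k
    induction k with
    | zero => simp
    | succ k ih =>
      have hz := Subgroup.mem_center_iff.1 (hc (hmem b hb b' hb'))
      have h1 : b ^ (k + 1) * b' * (b ^ (k + 1))⁻¹ * b'⁻¹ =
          b ^ k * (b * b' * b⁻¹ * b'⁻¹) * b' * (b ^ k)⁻¹ * b'⁻¹ := by
        rw [pow_succ]; group
      rw [h1, hz (b ^ k)]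
      have h2 : b * b' * b⁻¹ * b'⁻¹ * b ^ k * b' * (b ^ k)⁻¹ * b'⁻¹ =
          (b * b' * b⁻¹ * b'⁻¹) * (b ^ k * b' * (b ^ k)⁻¹ * b'⁻¹) := by group
      rw [h2, ih, pow_succ']
  have htor : ∀ b ∈ B, ∀ b' ∈ B, IsOfFinOrder (b * b' * b⁻¹ * b'⁻¹) := by
    intro b hb b' hb'
    rw [isOfFinOrder_iff_pow_eq_one]
    have h1 : ¬ Function.Injective fun k : ℕ => (b * b' * b⁻¹ * b'⁻¹) ^ k := by
      intro hinj
      refine Set.infinite_range_of_injective hinj (hf.subset ?_)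
      rintro _ ⟨k, rfl⟩
      exact ⟨b ^ k, B.pow_mem hb k, b', hb', (hpow b hb b' hb' k).symm⟩
    by_contra hcon
    push Not at hcon
    apply h1
    have key : ∀ i j : ℕ, i < j → (b * b' * b⁻¹ * b'⁻¹) ^ i ≠ (b * b' * b⁻¹ * b'⁻¹) ^ j := by
      intro i j hij he
      have h2 : (b * b' * b⁻¹ * b'⁻¹) ^ (j - i) = 1 := by
        have h3 : (b * b' * b⁻¹ * b'⁻¹) ^ i * (b * b' * b⁻¹ * b'⁻¹) ^ (j - i) =
            (b * b' * b⁻¹ * b'⁻¹) ^ i * 1 := by
          rw [← pow_add, Nat.add_sub_cancel' hij.le, mul_one, he]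
        exact mul_left_cancel h3
      exact hcon (j - i) (by omega) h2
    intro i j he
    rcases lt_trichotomy i j with h | h | h
    · exact absurd he (key i j h)
    · exact h
    · exact absurd he.symm (key j i h)
  have hfg : Group.FG (⁅B, B⁆ : Subgroup G) := by
    rw [Group.fg_iff_subgroup_fg, Subgroup.fg_iff]
    exact ⟨_, hcl.symm, hf⟩
  have ht : IsMulTorsion (⁅B, B⁆ : Subgroup G) := by
    rintro ⟨x, hx⟩
    have h1 : IsOfFinOrder x := by
      have hx' := hx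
      rw [hcl] at hx'
      have key : ∀ y (hy : y ∈ Subgroup.closure
          {c : G | ∃ b ∈ B, ∃ b' ∈ B, c = b * b' * b⁻¹ * b'⁻¹}), IsOfFinOrder y := by
        intro y hy
        induction hy using Subgroup.closure_induction with
        | mem y hy =>
          obtain ⟨b, hb, b', hb', rfl⟩ := hy
          exact htor b hb b' hb'
        | one => exact IsOfFinOrder.one
        | mul y z hy hz h1 h2 =>
          have h3 : Commute y z := by
            rw [← hcl] at hz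
            exact Subgroup.mem_center_iff.1 (hc hz) y
          exact h3.isOfFinOrder_mul h1 h2
        | inv y hy h1 => exact h1.inv
      exact key x hx'
    exact Submonoid.isOfFinOrder_coe.1 h1
  let iC : CommGroup (⁅B, B⁆ : Subgroup G) :=
    { (inferInstance : Group (⁅B, B⁆ : Subgroup G)) with
      mul_comm := fun a b => Subtype.ext (Subgroup.mem_center_iff.1 (hc b.2) a.1) }
  have : Finite (⁅B, B⁆ : Subgroup G) :=
    @CommGroup.finite_of_fg_isMulTorsion (⁅B, B⁆ : Subgroup G) iC hfg ht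
  exact Set.toFinite _

/-- the bicentralizer -/
theorem bic (D : Subgroup G) (hD : D.Normal) (hab : ∀ a ∈ D, ∀ b ∈ D, a * b = b * a) :
    (Subgroup.centralizer (Subgroup.centralizer (D : Set G) : Set G) ⊓
      Subgroup.centralizer (D : Set G)).Normal ∧
    D ≤ Subgroup.centralizer (Subgroup.centralizer (D : Set G) : Set G) ⊓
      Subgroup.centralizer (D : Set G) ∧
    ∀ a ∈ Subgroup.centralizer (Subgroup.centralizer (D : Set G) : Set G) ⊓
      Subgroup.centralizer (D : Set G),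
      ∀ b ∈ Subgroup.centralizer (Subgroup.centralizer (D : Set G) : Set G) ⊓
      Subgroup.centralizer (D : Set G), a * b = b * a := by
  have hn : ∀ E : Subgroup G, E.Normal → (Subgroup.centralizer (E : Set G)).Normal := by
    intro E hE
    constructor
    intro x hx g
    rw [Subgroup.mem_centralizer_iff] at hx ⊢
    intro e he
    have h1 := hx (g⁻¹ * e * g) (by simpa using hE.conj_mem e he g⁻¹)
    have h2 : e * (g * x * g⁻¹) = g * ((g⁻¹ * e * g) * x) * g⁻¹ := by group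
    rw [h2, h1]
    group
  have h1 := hn D hD
  have h2 := hn _ h1
  refine ⟨⟨fun x hx g => ⟨h2.conj_mem x hx.1 g, h1.conj_mem x hx.2 g⟩⟩, fun d hd => ⟨?_, ?_⟩, ?_⟩
  · change d ∈ Subgroup.centralizer _
    rw [Subgroup.mem_centralizer_iff]
    intro e he
    exact ((Subgroup.mem_centralizer_iff.1 he) d hd).symm
  · change d ∈ Subgroup.centralizer _
    rw [Subgroup.mem_centralizer_iff]
    intro e he
    exact hab e he d hd
  · intro a ha b hb
    exact ((Subgroup.mem_centralizer_iff.1 ha.1) b hb.2).symm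

end pure

section main

variable {M : Type} (U : RU M) {G V : Type} [Group G] [AddCommGroup V]
  [DistribMulAction G V] [Cod M G] [Cod M V] [DG U G] [DAb U V] [DA U G V]

/-- (0) -/
theorem st0 (hCLI : T_CLI) (hc : Conn U (⊤ : Subgroup G))
    (hm : Mn U (⊤ : Subgroup G) (⊤ : AddSubgroup V)) (hf : FaithfulSMul G V) (T : Subgroup G)
    (hT : T.Normal) (hTc : Conn U T) (hab : ∀ a ∈ T, ∀ b ∈ T, a * b = b * a) :
    T ≤ Subgroup.center G := by
  intro t ht
  rw [Subgroup.mem_center_iff]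
  intro g
  have h1 : g * t * g⁻¹ = t :=
    hf.eq_of_smul_eq_smul fun v => hCLI U hc hm T hT hTc hab g t ht v
  calc g * t = g * t * g⁻¹ * g := by group
    _ = t * g := by rw [h1]

theorem cc_normal (hCCE : T_CCE) (A : Subgroup G) (hA : A.Normal) (hd : U.D (A : Set G)) :
    (cc U A).Normal := by
  obtain ⟨-, -, -, -, -, h⟩ := hCCE U A hd
  constructor
  intro x hx g
  refine (h g (fun y => ⟨fun hy => hA.conj_mem y hy g, fun hy => ?_⟩) x).1 hx
  have := hA.conj_mem _ hy g⁻¹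
  have h2 : g⁻¹ * (g * y * g⁻¹) * g⁻¹⁻¹ = y := by group
  rwa [h2] at this

/-- (1) -/
theorem st1 (hCCF : T_CCF) (hCTD : T_CTD) (hCCE : T_CCE) (hFCJ : T_FCJ)
    (hc : Conn U (⊤ : Subgroup G)) (hm : Mn U (⊤ : Subgroup G) (⊤ : AddSubgroup V))
    (hf : FaithfulSMul G V) (A : Subgroup G) (hA : A.Normal) (hd : U.D (A : Set G))
    (hz : cc U A ≤ Subgroup.center G) : A ≤ Subgroup.center G := by
  have hN : (cc U A).Normal := cc_normal U hCCE A hA hd
  obtain ⟨hN1, hN2, -, hN4, -, -⟩ := hCCE U A hd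
  intro a ha
  have htop : Cm (cc U A) {a} = ⊤ := by
    have hD : U.D (Cm (cc U A) {a} : Set G) := by
      rw [coe_Cm]
      exact (hCTD U (Γ := G)).2.1 (cc U A) hN1.1 {a}
    refine hc.2 _ le_top hD ?_
    have h1 := (Pool.Agent.H77.BCP.a_GRA U (⊤ : Subgroup G) (Cm (cc U A) {a}) hc.1 hD le_top)
    rw [Subgroup.relIndex_top_right] at h1
    exact h1.1 (Cm_index (cc U A) A hA hN4 a ha)
  have hall : ∀ g : G, g * a * g⁻¹ * a⁻¹ ∈ Subgroup.center G := by
    intro g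
    have hg : g ∈ Cm (cc U A) {a} := by rw [htop]; trivial
    exact hz (mem_Cm.1 hg a rfl)
  have hfin := hCCF U (G := G) (V := V) hc hm hf
  have hcls : {y : G | ∃ g ∈ (⊤ : Subgroup G), y = g * a * g⁻¹}.Finite := by
    refine (hfin.image fun c => c * a).subset ?_
    rintro _ ⟨g, -, rfl⟩
    exact ⟨g * a * g⁻¹ * a⁻¹, ⟨hall g, a, g, rfl⟩, by group⟩
  have := hFCJ U (⊤ : Subgroup G) a hc hcls
  rw [Subgroup.mem_center_iff]
  intro g
  exact this g (Subgroup.mem_top g)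

/-- (2) -/
theorem st2 (hCCF : T_CCF) (hCLI : T_CLI) (hCTD : T_CTD) (hCCE : T_CCE) (hFCJ : T_FCJ)
    (hc : Conn U (⊤ : Subgroup G)) (hm : Mn U (⊤ : Subgroup G) (⊤ : AddSubgroup V))
    (hf : FaithfulSMul G V) (A : Subgroup G) (hA : A.Normal) (hd : U.D (A : Set G))
    (hab : ∀ a ∈ cc U A, ∀ b ∈ cc U A, a * b = b * a) : A ≤ Subgroup.center G := by
  obtain ⟨hN1, hN2, -, hN4, -, -⟩ := hCCE U A hd
  exact st1 U (V := V) hCCF hCTD hCCE hFCJ hc hm hf A hA hd
    (st0 U (V := V) hCLI hc hm hf _ (cc_normal U hCCE A hA hd) hN1 hab)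

/-- (3), (4) -/
theorem st3 (hCCF : T_CCF) (hCLI : T_CLI) (hCTD : T_CTD) (hCCE : T_CCE) (hFCJ : T_FCJ)
    (hc : Conn U (⊤ : Subgroup G)) (hm : Mn U (⊤ : Subgroup G) (⊤ : AddSubgroup V))
    (hf : FaithfulSMul G V) (B : Subgroup G) (hB : B.Normal)
    (hab : ∀ a ∈ ⁅B, B⁆, ∀ b ∈ ⁅B, B⁆, a * b = b * a) : ⁅B, B⁆ = ⊥ := by
  have hmem : ∀ b ∈ B, ∀ b' ∈ B, b * b' * b⁻¹ * b'⁻¹ ∈ ⁅B, B⁆ := by
    intro b hb b' hb'
    have := Subgroup.commutator_mem_commutator hb hb'
    rwa [commutatorElement_def] at this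
  have hDn : (⁅B, B⁆ : Subgroup G).Normal := Subgroup.commutator_normal B B
  obtain ⟨b1, b2, b3⟩ := bic ⁅B, B⁆ hDn hab
  have hZ : U.D ((Subgroup.centralizer (Subgroup.centralizer ((⁅B, B⁆ : Subgroup G) : Set G) : Set G) ⊓
      Subgroup.centralizer ((⁅B, B⁆ : Subgroup G) : Set G) : Subgroup G) : Set G) := by
    rw [Subgroup.coe_inf]
    exact D_inter ((hCTD U (Γ := G)).1 _) ((hCTD U (Γ := G)).1 _)
  have hcc : ∀ A : Subgroup G, U.D (A : Set G) → cc U A ≤ A := fun A hA => (hCCE U A hA).2.1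
  have hDc : (⁅B, B⁆ : Subgroup G) ≤ Subgroup.center G :=
    b2.trans (st2 U (V := V) hCCF hCLI hCTD hCCE hFCJ hc hm hf _ b1 hZ
      fun a ha b hb => b3 a (hcc _ hZ ha) b (hcc _ hZ hb))
  have hfin : ((⁅B, B⁆ : Subgroup G) : Set G).Finite := by
    refine comm_finite B hDc ((hCCF U (G := G) (V := V) hc hm hf).subset ?_)
    rintro _ ⟨b, hb, b', hb', rfl⟩
    exact ⟨hDc (hmem b hb b' hb'), b', b, rfl⟩
  have hDD : U.D ((⁅B, B⁆ : Subgroup G) : Set G) := D_finite hfin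
  -- the second centralizer modulo `D`
  have hA1n : (Cm (⁅B, B⁆ : Subgroup G) (B : Set G)).Normal :=
    Cm_normal _ _ fun x hx h => hB.conj_mem x hx h
  set A1 := Cm (⁅B, B⁆ : Subgroup G) (B : Set G) with hA1
  have hA1D : U.D (A1 : Set G) := by
    rw [hA1, coe_Cm]
    exact (hCTD U (Γ := G)).2.1 _ hDD _
  have hA2n : (Cm (⁅B, B⁆ : Subgroup G) (A1 : Set G)).Normal :=
    Cm_normal _ _ fun x hx h => hA1n.conj_mem x hx h
  have hA2D : U.D (Cm (⁅B, B⁆ : Subgroup G) (A1 : Set G) : Set G) := by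
    rw [coe_Cm]
    exact (hCTD U (Γ := G)).2.1 _ hDD _
  have hA3n : (A1 ⊓ Cm (⁅B, B⁆ : Subgroup G) (A1 : Set G)).Normal :=
    ⟨fun x hx g => ⟨hA1n.conj_mem x hx.1 g, hA2n.conj_mem x hx.2 g⟩⟩
  set A2 := A1 ⊓ Cm (⁅B, B⁆ : Subgroup G) (A1 : Set G) with hA2
  have hA2D' : U.D (A2 : Set G) := by
    rw [hA2, Subgroup.coe_inf]
    exact D_inter hA1D hA2D
  have hBA : B ≤ A2 := by
    intro b hb
    refine ⟨?_, ?_⟩
    · change b ∈ Cm _ _
      rw [mem_Cm]
      intro x hx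
      exact hmem b hb x hx
    · change b ∈ Cm _ _
      rw [mem_Cm]
      intro x hx
      have h1 := mem_Cm.1 (show x ∈ Cm (⁅B, B⁆ : Subgroup G) (B : Set G) from hx) b hb
      have h2 := (⁅B, B⁆ : Subgroup G).inv_mem h1
      have h3 : (x * b * x⁻¹ * b⁻¹)⁻¹ = b * x * b⁻¹ * x⁻¹ := by group
      rwa [h3] at h2
  have hcomm : ∀ a ∈ A2, ∀ g ∈ cc U A2, g * a = a * g := by
    intro a ha
    refine hFCJ U (cc U A2) a (hCCE U A2 hA2D').1 ?_
    refine (hfin.image fun c => c * a).subset ?_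
    rintro _ ⟨g, hg, rfl⟩
    refine ⟨g * a * g⁻¹ * a⁻¹, ?_, by group⟩
    exact mem_Cm.1 (show g ∈ Cm (⁅B, B⁆ : Subgroup G) (A1 : Set G) from (hcc _ hA2D' hg).2) a ha.1
  have hcen : A2 ≤ Subgroup.center G :=
    st2 U (V := V) hCCF hCLI hCTD hCCE hFCJ hc hm hf A2 hA3n hA2D'
      fun a ha b hb => (hcomm b (hcc _ hA2D' hb) a ha)
  rw [Subgroup.commutator_eq_bot_iff_le_centralizer]
  intro b hb
  rw [Subgroup.mem_centralizer_iff]
  intro x _
  exact Subgroup.mem_center_iff.1 (hcen (hBA hb)) x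

end main

theorem pf_MLC (hCCF : T_CCF) (hCLI : T_CLI) (hCTD : T_CTD) (hCCE : T_CCE) (hFCJ : T_FCJ) :
    T_MLC := by
  intro M U G V iG iV iA cG cV dG dV dA hc hm hf hs
  obtain ⟨n, hn⟩ := hs.solvable
  have key : ∀ n : ℕ, derivedSeries G (n + 1) = ⊥ → derivedSeries G 1 = ⊥ := by
    intro n
    induction n with
    | zero => exact id
    | succ n ih =>
      intro h
      apply ih
      rw [derivedSeries_succ]
      refine st3 U (V := V) hCCF hCLI hCTD hCCE hFCJ hc hm hf (derivedSeries G n)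
        (derivedSeries_normal G n) ?_
      intro a ha b hb
      have h1 : ⁅derivedSeries G (n + 1), derivedSeries G (n + 1)⁆ = ⊥ := by
        rw [← derivedSeries_succ]; exact h
      rw [Subgroup.commutator_eq_bot_iff_le_centralizer] at h1
      have h2 := h1 (show a ∈ derivedSeries G (n + 1) by rw [derivedSeries_succ]; exact ha)
      exact ((Subgroup.mem_centralizer_iff.1 h2) b
        (show b ∈ derivedSeries G (n + 1) by rw [derivedSeries_succ]; exact hb)).symm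
  have h1 : derivedSeries G 1 = ⊥ := by
    cases n with
    | zero =>
      rw [derivedSeries_zero] at hn
      rw [eq_bot_iff, ← hn]
      exact le_top
    | succ n => exact key n hn
  intro a b
  rw [derivedSeries_succ, derivedSeries_zero,
    Subgroup.commutator_eq_bot_iff_le_centralizer] at h1
  have h2 := h1 (Subgroup.mem_top a)
  exact ((Subgroup.mem_centralizer_iff.1 h2) b (Subgroup.mem_top b)).symm

end Pool.Agent.H68.KG.MLC
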